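import Pool.Agent.P.MP_5c18f4_pr.XY4

open MeasureTheory Pool.Agent.P.MP_5c18f4_pr

/-- For every admissible interaction and each of the models (killed random walk, self-avoiding
walk, FK percolation with `q ≥ 1`, Potts, Ising, XY), the inverse correlation length exists in
every direction and is a continuous function of the parameter on the whole subcritical interval
(for the XY model: on all of `(0, ∞)`); in particular it is continuous at the saturation point. -/
theorem Pool.Agent.Results.MP_5c18f4_pr.Continuity.result (d : ℕ) (N : Seminorm ℝ (Fin d → ℝ))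
    (ψ : Site d → ℝ) (h : Admissible N ψ) :
    CorrContinuous (fun l x => (walkG (coupling N ψ) (fun _ => True) l x).toReal) (below 1) ∧
    CorrContinuous (fun l x => (walkG (coupling N ψ) SelfAvoiding l x).toReal)
      (below (sawThreshold (coupling N ψ))) ∧
    (∀ q : ℝ, 1 ≤ q → (∀ β, 0 < β → ∃ Φ, IsFKLimit (coupling N ψ) q β Φ) ∧
      ∀ Φ : ℝ → Measure (Set (Sym2 (Site d))),
        (∀ β, 0 < β → IsFKLimit (coupling N ψ) q β (Φ β)) →
        CorrContinuous (fun β x => (Φ β).real {ω | x ∈ cluster ω 0}) (below (fkThreshold Φ)) ∧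
        (∀ k : ℕ, 2 ≤ k → q = k → ∃ G, IsBoxLimit (pottsCorr (coupling N ψ) k) G ∧
          CorrContinuous G (below (fkThreshold Φ))) ∧
        (q = 2 → ∃ G, IsBoxLimit (isingCorr (coupling N ψ)) G ∧
          CorrContinuous G (below (fkThreshold Φ / 2)))) ∧
    ∃ G, IsBoxLimit (xyCorr (coupling N ψ)) G ∧ CorrContinuous G (Set.Ioi 0) :=
  ⟨Walk.corr_krw h.jok.nonneg h.jok.pos h.total, Walk.corr_saw h.jok.nonneg h.jok.pos,
    fun _ hq => ⟨fun _ hβ => h.jok.exists_limit hq hβ, fun _ hΦ => ⟨h.jok.corr_fk hq hΦ,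
      fun _ hk e => h.jok.corr_potts Admissible.J_zero hk (e ▸ hΦ),
      fun e => h.jok.corr_ising Admissible.J_zero (e ▸ hΦ)⟩⟩, h.corr_xy⟩
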